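import Pool.Agent.helper17.CH.SpecQ
import Pool.Agent.helper74.TG.SW

/-!
# Row ch:PI (MP_5628fe_nt): upper bound for the number of primes in intervals `(v, v + h]`
-/

set_option autoImplicit false

namespace Pool.Agent.CH

open Finset ArithmeticFunction

theorem PI : PI_stmt := by
  intro κ B hκ
  obtain ⟨C, x₀, hC, H⟩ := Pool.Agent.helper74.TG.psi_pnt (B + 1)
  refine ⟨max x₀ (Real.exp (max 1 (3 * C / κ))), ?_⟩
  intro v h hv hh1 hh2
  have hv0 : x₀ ≤ v := (le_max_left _ _).trans hv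
  have hve : Real.exp (max 1 (3 * C / κ)) ≤ v := (le_max_right _ _).trans hv
  have hvpos : 0 < v := (Real.exp_pos _).trans_le hve
  have hL : max 1 (3 * C / κ) ≤ Real.log v := by
    rw [Real.le_log_iff_exp_le hvpos]
    exact hve
  have hL1 : 1 ≤ Real.log v := (le_max_left _ _).trans hL
  have hL2 : 3 * C / κ ≤ Real.log v := (le_max_right _ _).trans hL
  set L := Real.log v with hLdef
  have hL0 : 0 < L := by linarith
  have hhpos : 0 < h := lt_of_lt_of_le (by positivity) hh1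
  have e1 := H v hv0
  have e2 := H (v + h) (by linarith)
  have hLw : L ≤ Real.log (v + h) := Real.log_le_log hvpos (by linarith)
  -- the error terms
  have hvL : v / L ^ (B + 1) ≤ h / L := by
    rw [pow_succ, ← div_div]
    exact div_le_div_of_nonneg_right hh1 hL0.le
  have e3 : C * v / L ^ (B + 1) ≤ C * (h / L) := by
    rw [mul_div_assoc]
    exact mul_le_mul_of_nonneg_left hvL hC.le
  have e4 : C * (v + h) / Real.log (v + h) ^ (B + 1) ≤ 2 * C * (h / L) := by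
    have h5 : C * (v + h) / Real.log (v + h) ^ (B + 1) ≤ C * (v + h) / L ^ (B + 1) := by
      apply div_le_div_of_nonneg_left (by positivity) (by positivity)
      exact pow_le_pow_left₀ hL0.le hLw _
    have h6 : C * (v + h) / L ^ (B + 1) ≤ 2 * C * (v / L ^ (B + 1)) := by
      rw [← mul_div_assoc]
      apply div_le_div_of_nonneg_right _ (by positivity)
      nlinarith
    have h7 : 2 * C * (v / L ^ (B + 1)) ≤ 2 * C * (h / L) :=
      mul_le_mul_of_nonneg_left hvL (by linarith)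
    linarith
  have hsub : Ioc 0 ⌊v⌋₊ ⊆ Ioc 0 ⌊v + h⌋₊ :=
    Ioc_subset_Ioc_right (Nat.floor_le_floor (by linarith))
  have hfl : ⌊v⌋₊ ≤ ⌊v + h⌋₊ := Nat.floor_le_floor (by linarith)
  have e5 : ∑ n ∈ Ioc 0 ⌊v + h⌋₊, vonMangoldt n =
      ∑ n ∈ Ioc 0 ⌊v⌋₊, vonMangoldt n + ∑ n ∈ Ioc ⌊v⌋₊ ⌊v + h⌋₊, vonMangoldt n :=
    (sum_Ioc_consecutive _ (Nat.zero_le _) hfl).symm
  have e6 : (#((Ioc ⌊v⌋₊ ⌊v + h⌋₊).filter Nat.Prime) : ℝ) * L ≤
      ∑ n ∈ Ioc ⌊v⌋₊ ⌊v + h⌋₊, vonMangoldt n := by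
    calc (#((Ioc ⌊v⌋₊ ⌊v + h⌋₊).filter Nat.Prime) : ℝ) * L
        = ∑ p ∈ (Ioc ⌊v⌋₊ ⌊v + h⌋₊).filter Nat.Prime, L := by
          rw [sum_const, nsmul_eq_mul]
      _ ≤ ∑ p ∈ (Ioc ⌊v⌋₊ ⌊v + h⌋₊).filter Nat.Prime, vonMangoldt p := by
          refine sum_le_sum fun p hp => ?_
          rw [mem_filter, mem_Ioc] at hp
          rw [vonMangoldt_apply_prime hp.2]
          exact Real.log_le_log hvpos (Nat.lt_of_floor_lt hp.1.1).le
      _ ≤ ∑ n ∈ Ioc ⌊v⌋₊ ⌊v + h⌋₊, vonMangoldt n :=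
          sum_le_sum_of_subset_of_nonneg (filter_subset _ _) fun _ _ _ => vonMangoldt_nonneg
  have e7 : 3 * C * (h / L) ≤ κ * h := by
    rw [div_le_iff₀ hκ] at hL2
    rw [← mul_div_assoc, div_le_iff₀ hL0]
    nlinarith
  rw [le_div_iff₀ hL0]
  have a1 := (abs_le.mp e1).1
  have a2 := (abs_le.mp e2).2
  have : (1 + κ) * h = h + κ * h := by ring
  rw [this]
  linarith

end Pool.Agent.CH
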